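import Pool.Agent.Helper40.MukN.Hyp
import Pool.Agent.Helper40.MukN.Cd2

/-!
# Property `N_d` for adjoint bundles on hypersurfaces in `P(1, ..., 1, a, b)`

Let `X` be a smooth hypersurface of degree `e` and dimension `n` in the weighted projective space
`P(1^n, a, b)`, `a` and `b` coprime, which does not contain the two coordinate points
`(0 : ... : 0 : 1 : 0)` and `(0 : ... : 0 : 0 : 1)` (for `n ≥ 2` this is automatic at the point
of weight `a` if `a ≥ 2`, since it is then a singular point of the space, and it is reached by a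
change of coordinates if `a = 1`, unless `X = P^n`; the same for `b`).  Let `A = O_X(α)`, `α ≥ 1`;
for `n ≥ 3` these are all the ample divisors.  The section ring of `O_X(1)` is
`R = ℂ[x_1, ..., x_n, y, z]/(f)`, `K_X = O_X(e - n - a - b)`, and
`K_X + (n + 2 + d) A = O_X(l)` with `l ≥ e - a - b + 2 + d`, so that the theorem below gives
property `N_d`.
If `a, b ≥ 2` then `O_X(1)` has the base points `x_1 = ... = x_n = 0` on `X`; they
may form a scheme which is not reduced.
-/

set_option autoImplicit false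

open MvPolynomial

namespace Pool.Agent.Results.MP_6cd8ad_ag.HypersurfaceNd

open Pool.Agent.Helper40.MukN

/-- The weights of the variables `x_1, ..., x_n` (indexed by `Fin n`) and `y, z` (indexed by
`Fin 2`): `1, ..., 1` and `a, b`. -/
def weight (n a b : ℕ) : Fin n ⊕ Fin 2 → ℕ := Sum.elim (fun _ => 1) ![a, b]

/-- The point `(0, ..., 0, s, t)`. -/
def point (n : ℕ) (s t : ℂ) : Fin n ⊕ Fin 2 → ℂ := Sum.elim (fun _ => 0) ![s, t]

/-- The homogeneous part of degree `m` of `R = φ(ℂ[x_1, ..., x_n, y, z])`: the images of the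
weighted homogeneous polynomials of degree `m`. -/
noncomputable def part {R : Type*} [CommRing R] [Algebra ℂ R] {n : ℕ}
    (φ : MvPolynomial (Fin n ⊕ Fin 2) ℂ →ₐ[ℂ] R) (a b m : ℕ) : Submodule ℂ R :=
  (weightedHomogeneousSubmodule ℂ (weight n a b) m).map φ.toLinearMap

/-- Let `a, b ≥ 1` be coprime and let `f` in `ℂ[x_1, ..., x_n, y, z]` be weighted homogeneous of
degree `e > 0` for the weights `1, ..., 1, a, b`, not zero at `(0, ..., 0, 1, 0)` and at
`(0, ..., 0, 0, 1)`.  Let `φ : ℂ[x_1, ..., x_n, y, z] → R` be a surjective homomorphism of algebras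
with the kernel `(f)`, so that `R = ℂ[x_1, ..., x_n, y, z]/(f)`.  If `l ≥ e - a - b + 2 + d`,
`p ≤ d` and `q ≥ 1`, then the Koszul cohomology at the middle of
`∧^(p+1) R_l ⊗ R_(ql) → ∧^p R_l ⊗ R_((q+1)l) → ∧^(p-1) R_l ⊗ R_((q+2)l)` is zero
(`KZero (part φ a b) l p q`). -/
theorem result {R : Type*} [CommRing R] [Algebra ℂ R] (n a b : ℕ) (ha : 0 < a) (hb : 0 < b)
    (hab : Nat.Coprime a b) (e : ℕ) (he : 0 < e) (f : MvPolynomial (Fin n ⊕ Fin 2) ℂ)
    (hf : IsWeightedHomogeneous (weight n a b) f e)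
    (hY : eval (point n 1 0) f ≠ 0) (hZ : eval (point n 0 1) f ≠ 0)
    (φ : MvPolynomial (Fin n ⊕ Fin 2) ℂ →ₐ[ℂ] R) (hφ : Function.Surjective φ)
    (hker : RingHom.ker φ = Ideal.span {f})
    (l d : ℕ) (hl : (e : ℤ) - a - b + 2 + d ≤ l) (p q : ℕ) (hp : p ≤ d) (hq : 1 ≤ q) :
    KZero (part φ a b) l p q := by
  have h1 : KZero (hypGr f a b) l p q :=
    kzero_of_koszulZero (hypersurface ha hb hab he hf hY hZ hl hp hq)
  let ψ : (MvPolynomial (Fin n ⊕ Fin 2) ℂ ⧸ Ideal.span {f}) ≃ₐ[ℂ] R :=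
    (Ideal.quotientEquivAlgOfEq ℂ hker.symm).trans (Ideal.quotientKerAlgEquivOfSurjective hφ)
  have hψ : ∀ g, ψ (qq f g) = φ g := fun g => rfl
  apply h1.transport ψ
  intro m r
  constructor
  · rintro ⟨g, hg, hg2⟩
    refine ⟨g, hg, ψ.injective ?_⟩
    rw [← hg2]
    exact hψ g
  · rintro ⟨g, hg, rfl⟩
    exact ⟨g, hg, (hψ g).symm⟩

end Pool.Agent.Results.MP_6cd8ad_ag.HypersurfaceNd
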