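import Pool.Agent.Helper40.MukN.Trans
import Pool.Agent.Helper40.MukN.Cd2

/-!
# Property `N_d` for adjoint bundles when `n` sections of `A` meet transversally

Let `X` be a smooth projective variety of dimension `n`, `A` an ample divisor with `K_X = k A`,
`H^i(X, j A) = 0` for `0 < i < n` and all `j`, and suppose that `n` sections `x_1, ..., x_n` of `A`
meet transversally, in the points `P_1, ..., P_e` with `e = A^n` (the complete linear system of `A`
may have base points).  Let `R` be the section ring of `A`, and let `P_i : R → K` be the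
evaluation at a point of the affine cone over `P_i`.  Then `x_1, ..., x_n` is a regular sequence of
`R`, the quotient `R/(x_1, ..., x_n)` embeds in the coordinate ring of the cone over the reduced
scheme `{P_1, ..., P_e}`, and the last hypothesis below holds with `f = k + n` by the duality of
`R/(x_1, ..., x_n)` (sum of the residues; this is the theorem of Cayley and Bacharach).
The theorem gives `K_{p,q}(X, l A) = 0` for `p ≤ d`, `q ≥ 2`, `l ≥ k + n + 2 + d`, and therefore
property `N_d` for `K_X + (n + 2 + d) A'` for every multiple `A' = α A`, `α ≥ 1`, of `A`.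
-/

set_option autoImplicit false

namespace Pool.Agent.Results.MP_6cd8ad_ag.TransversalNd

open Pool.Agent.Helper40.MukN

/-- Let `R` be a graded commutative algebra over a field `K` of characteristic zero, with
homogeneous parts `𝒜 m`, let `x_1, ..., x_n` of degree one be a (weakly) regular sequence, let
`P_1, ..., P_e : R → K`, `e ≥ 1`, be homomorphisms of algebras which kill the `x_j` such that every
homogeneous `r` killed by all the `P_i` is in the ideal `(x_1, ..., x_n)`, and let `f` be an
integer such that for all `i` and all integers `w` there is an `r` of degree `w` with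
`P_i r ≠ 0`, or there is an `r` of degree `f - w` with `P_i r ≠ 0` and `P_j r = 0` for all
`j ≠ i`.  If `l ≥ f + 2 + d`, `p ≤ d` and `q ≥ 1`, then the Koszul cohomology at the middle of
`∧^(p+1) R_l ⊗ R_(ql) → ∧^p R_l ⊗ R_((q+1)l) → ∧^(p-1) R_l ⊗ R_((q+2)l)` is zero
(`KZero 𝒜 l p q`). -/
theorem result {K : Type*} [Field K] [CharZero K] {R : Type*} [CommRing R] [Algebra K R]
    (𝒜 : ℕ → Submodule K R) [GradedAlgebra 𝒜] {n e : ℕ} (he : 0 < e)
    (x : Fin n → R) (hx : ∀ j, x j ∈ 𝒜 1)
    (hreg : RingTheory.Sequence.IsWeaklyRegular R (List.ofFn x))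
    (P : Fin e → R →ₐ[K] K) (hxP : ∀ i j, P i (x j) = 0)
    (hP : ∀ m, ∀ r ∈ 𝒜 m, (∀ i, P i r = 0) → r ∈ Ideal.span (Set.range x))
    (f : ℤ) (hf : ∀ i : Fin e, ∀ w : ℤ, (∃ m : ℕ, (m : ℤ) = w ∧ ∃ r ∈ 𝒜 m, P i r ≠ 0) ∨
      ∃ m : ℕ, (m : ℤ) = f - w ∧ ∃ r ∈ 𝒜 m, P i r ≠ 0 ∧ ∀ j ≠ i, P j r = 0)
    (l d : ℕ) (hl : f + 2 + d ≤ l) (p q : ℕ) (hp : p ≤ d) (hq : 1 ≤ q) :
    KZero 𝒜 l p q :=
  kzero_of_koszulZero (transversal 𝒜 he x hx hreg P hxP hP f hf hl hp hq)

end Pool.Agent.Results.MP_6cd8ad_ag.TransversalNd
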