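import Pool.Agent.Helper40.Muk.Tight

/-!
# Projective normality of adjoint bundles on weighted complete intersections

Let `X` be a smooth complete intersection of dimension `n` in the weighted projective space
`P(a_0, ..., a_(N-1))` with pairwise coprime weights, `A = O_X(k)` with `k ≥ 1`, and suppose that
one of the equations of `X`, of degree `e`, contains the pure power of every variable of weight
at least two (for hypersurfaces this holds because a smooth `X` does not pass through the
singular points of the weighted projective space).  The section ring of `O_X(1)` is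
`R = ℂ[x]/J`, `K_X = O_X(e_1 + ... + e_c - a_0 - ... - a_(N-1))`, and
`K_X + (n + 2 + d) A = O_X(l)` with `l ≥ e - (a_0 - 1) - ... - (a_(N-1) - 1)`.
The theorem below gives `R_l R_(q l) = R_((q + 1) l)` for all `q ≥ 1`, that is, property `N_0`.
-/

set_option autoImplicit false

open MvPolynomial

namespace Pool.Agent.Results.MP_6cd8ad_ag.WeightedMukai

open Pool.Agent.Helper40.Muk

/-- The homogeneous part of degree `m` of the ring `ℂ[x_0, ..., x_(N-1)]/J`, where `x_i` has
degree `a i`: the residue classes of the weighted homogeneous polynomials of degree `m`. -/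
noncomputable def part {N : ℕ} (a : Fin N → ℕ) (J : Ideal (MvPolynomial (Fin N) ℂ)) (m : ℕ) :
    Submodule ℂ (MvPolynomial (Fin N) ℂ ⧸ J) :=
  (weightedHomogeneousSubmodule ℂ a m).map (Ideal.Quotient.mkₐ ℂ J).toLinearMap

/-- Let `a` be pairwise coprime positive weights, `J` an ideal of `ℂ[x]` which contains a weighted
homogeneous polynomial `f` of degree `e > 0` such that for every `i` with `a i ≥ 2` the weight
`a i` divides `e` and the coefficient of `x_i ^ (e / a i)` in `f` is not zero.  If
`l ≥ e - ∑ (a i - 1)` and `l' ≥ e - ∑ (a i - 1) - 1`, then for the graded ring `R = ℂ[x]/J` the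
products of elements of `R_l` and `R_l'` span `R_(l + l')`. -/
theorem result (N : ℕ) (a : Fin N → ℕ) (ha : ∀ i, 1 ≤ a i)
    (hcop : ∀ i j, i ≠ j → (a i).Coprime (a j)) (J : Ideal (MvPolynomial (Fin N) ℂ))
    (f : MvPolynomial (Fin N) ℂ) (hfJ : f ∈ J) (e : ℕ) (he : 0 < e)
    (hf : IsWeightedHomogeneous a f e)
    (hpure : ∀ i, 2 ≤ a i → a i ∣ e ∧ coeff (Finsupp.single i (e / a i)) f ≠ 0)
    (l l' : ℕ) (hl : e ≤ l + ∑ i, (a i - 1)) (hl' : e ≤ l' + 1 + ∑ i, (a i - 1)) :
    part a J l * part a J l' = part a J (l + l') := by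
  unfold part
  rw [← Submodule.map_mul]
  apply le_antisymm
  · exact Submodule.map_mono (weightedHomogeneousSubmodule_mul a l l')
  · rintro _ ⟨p, hp, rfl⟩
    have h := mainAll (K := ℂ) ha hcop he hf hpure hl hl' hp
    obtain ⟨p1, hp1, p2, hp2, rfl⟩ := Submodule.mem_sup.1 h
    have h0 : (Ideal.Quotient.mkₐ ℂ J).toLinearMap p2 = 0 := by
      have h1 : p2 ∈ J := by
        rw [Submodule.restrictScalars_mem] at hp2
        exact (Ideal.span_singleton_le_iff_mem J).2 hfJ hp2
      exact Ideal.Quotient.eq_zero_iff_mem.2 h1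
    rw [map_add, h0, add_zero]
    exact ⟨p1, hp1, rfl⟩

end Pool.Agent.Results.MP_6cd8ad_ag.WeightedMukai
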